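import Pool.Agent.TH766.MC.Main

/-!
# Logarithmic Kodaira dimension and `𝔸¹`-uniruledness for open covers of arrangements

Let `ℓ i = 0` be `q` hyperplanes in projective `n`-space, an arbitrary arrangement (any number of
hyperplanes, in any position) with exactly `c` irreducible components (`Splits`: `c` is the largest
number of groups into which the variables can be divided, in suitable linear coordinates, such that
every `ℓ i` is a form in the variables of one group). Let `X` be an abelian cover of projective space
branched along the arrangement (`Cover`: `y k ^ m k = ∏ i, ℓ i ^ e k i`), `U` an arbitrary set of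
the hyperplanes, and `X° = X \ ⋃ {ℓ i = 0, i ∈ U}`. The multiplicative group is assumed to act
freely on the coordinates of the points of `X°` (`FreeU`), and the multiplicities of the cover over
the remaining hyperplanes are at least `n + 3 - c` (`MultU`), or at least `n + 1` if `c = 1` and
there are at least `n + 3` different hyperplanes.

`K` is the function field of `X`; the places `P` of `K` with `OffD X.ℓ U x P` are those whose
centre is not on `X°`, the boundary of `X°`. `KodGe ℂ K n Bd 0` says that the logarithmic Kodaira
dimension (of the complement of the boundary `Bd`, on a resolution) is at least `0`, `Psef` that the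
logarithmic canonical divisor is pseudo-effective, and `IsA1Uniruled ℂ K n Bd` that there is a
dominant map to `X°` from `Y × 𝔸¹`, `dim Y = n - 1`.
-/

set_option autoImplicit false

open FF Pool.Agent.W602.Cov Pool.Agent.W602.Cov.Cover Pool.Agent.W602.GT Pool.Agent.TH766.MC

namespace Pool.Agent.Results.MP_410da7_ag.ArrangementAffineLines

/-- Let `X` be an abelian cover of projective `n`-space branched along an arrangement with exactly
`c` irreducible components, `U` any set of the hyperplanes, and let the multiplicities of the cover
over the complement of the hyperplanes in `U` be at least `n + 3 - c`, or at least `n + 1` if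
`c = 1` and there are `n + 3` different hyperplanes. Then the following are equivalent for the open
variety `X° = X \ ⋃ {ℓ i = 0, i ∈ U}`: it is `𝔸¹`-uniruled; its logarithmic Kodaira dimension is
`-∞`; its logarithmic canonical divisor is not pseudo-effective; the arrangement has a free part
(it is a join of two arrangements such that all hyperplanes of `U` come from the second one). -/
theorem result (n q r : ℕ) (hn : 1 ≤ n) (X : Cover n q r) (U : Finset (Fin q)) (hF : X.FreeU U)
    (c R : ℕ) (hc : Splits X.ℓ c) (hc' : ¬ Splits X.ℓ (c + 1))
    (hR : R + c = n + 3 ∨ (c = 1 ∧ Many X.ℓ ∧ R = n + 1)) (hm : MultU X U R)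
    (K : Type) [Field K] [Algebra ℂ K] (x : Fin (n + 1) → K) (y : Fin r → K)
    (hK : X.FunctionField K x y) :
    [Pool.Agent.W619.PL.IsA1Uniruled ℂ K n (OffD X.ℓ U x), ¬ KodGe ℂ K n (OffD X.ℓ U x) 0,
      ¬ Psef ℂ K n (OffD X.ℓ U x), FreePart X.ℓ U].TFAE :=
  tfae hn X hF hK hc hc' hR hm

end Pool.Agent.Results.MP_410da7_ag.ArrangementAffineLines
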