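import Pool.Agent.Q58.LG.PrsL
import Pool.Agent.Y199.NN.NegA1

/-!
MP_410da7_ag, Q1: the quasi-projective varieties with an étale cover which corresponds in small degree
to a subvariety of a generic orbifold pair.

Let `k` be a subfield of the complex numbers, with algebraic closure `k'` in `ℂ`. Let `V` be a closed
subset of `ℙⁿ`, defined over `k'`, of dimension at most `m`, and let `F_a` be finitely many forms
over `ℂ` of degrees `d_a`, whose coefficients are all together algebraically independent over `k`
(this holds for very general forms, if `k` is countable). For a set `C` of indices let `X₀` be the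
intersection of `V` with the hypersurfaces `F_a = 0`, `a ∈ C`; for the other `a` let `q_a` be a
divisor of `d_a`, or `0`, and let `D₀` be the union of the hypersurfaces `F_a = 0`, `a ∉ C`,
`q_a = 0`.

Let `U` be a quasi-projective variety of dimension `w ≥ 1`, with function field `K`; the boundary
`Bd` is the set of the places of `K` whose centre is not on `U` (any set of places is allowed).
Consider

  `U ← U₁ ← U' → X₀`

where `U₁ → U` is finite of any degree and étale (the function field `L` of `U₁` is unramified over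
the prime divisors `P ∉ Bd`), `U' ⇢ U₁` is a generically finite rational map of degree `r`, with any
ramification, and `x : U' ⇢ X₀` is a rational map which is generically finite onto its image, any
subvariety of dimension `w` which is not in a hypersurface `F_a = 0`, `a ∉ C`. Assume that the
function field `E` of `U'` is generated by the coordinates of `x` over `L`, that `F_a (x)` is a
`q_a`-th power in `E` for `a ∉ C`, `q_a ≠ 0`, and that the divisors of `U'` with image in `D₀` lie
over the boundary of `U`.

(1) If `2 m + r + ∑_{a ∉ C} d_a / q_a ≤ ∑ d_a + |C| + w` (where `d / 0 = 0`), then the logarithmic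
Kodaira dimension of `U` is at least `0`, and `U` is not `𝔸¹`-uniruled. So Q1 holds for `U`.

(2) If `2 m + 2 r + ∑_{a ∉ C} d_a / q_a ≤ ∑ d_a + |C| + w`, then `U` is of logarithmic general type.

For `C` = all indices the boundary can be empty: then `U = X` is projective, and `κ (X) ≥ 0` and `X`
is not uniruled.

`KodGe ℂ K w Bd h` (`Pool/Agent/W602/GT/KDefs.lean`): the logarithmic Kodaira dimension is at least
`h`; `LogKodairaNeg`, `IsA1Uniruled` (`Pool/Agent/W619/PL/LDefs.lean`): it is `-∞`, and
`𝔸¹`-uniruledness; `Divisorial` (`Pool/Agent/W602/GT/Defs.lean`): the place is a prime divisor;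
`Over Q P e` (`Pool/Agent/Helper386/D5V/Helper399_OverDefs.lean`): the place `Q` lies over `P`, with
ramification index `e`; `DimLE`: `Pool/Agent/TH145/MG/Dim.lean`; `pord Q x`
(`Pool/Agent/W603/PV/Hgt.lean`) is the least order of the coordinates `x j` at `Q`, so the image of
`Q` is in `F_a = 0` iff `d_a * pord Q x < Q.ord (F_a (x))`.
-/

set_option autoImplicit false

namespace Pool.Agent.Results.MP_410da7_ag.CorrespondingPairs

open MvPolynomial FF
open Pool.Agent.TH145.MG (DimLE)
open Pool.Agent.W603.PV (pord)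
open Pool.Agent.W603.LV
open Pool.Agent.W602.GT (Divisorial KodGe)
open Pool.Agent.W619.PL (LogKodairaNeg IsA1Uniruled)

theorem result {k : Type} [Field k] [Algebra k ℂ] {n m w : ℕ}
    -- forms of degrees `d a`, whose coefficients are algebraically independent over `k`
    {A : Type} [Fintype A] [DecidableEq A] (d : A → ℕ)
    (F : A → MvPolynomial (Fin (n + 1)) ℂ) (hF : ∀ a, (F a).IsHomogeneous (d a))
    (hgen : AlgebraicIndependent k
      fun p : (a : A) × {I : Fin (n + 1) →₀ ℕ // I.degree = d a} => (F p.1).coeff p.2.1)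
    -- a closed set `V` of dimension at most `m`
    (V : Set (MvPolynomial (Fin (n + 1)) (algebraicClosure k ℂ)))
    (hVh : ∀ f ∈ V, ∃ e, f.IsHomogeneous e) (hV : DimLE (algebraicClosure k ℂ) V m)
    -- the equations of `X₀` and the multiplicities
    (C : Finset A) (q : A → ℕ) (hq : ∀ a, a ∉ C → q a ∣ d a ∨ q a = 0)
    -- the function fields of `U`, `U₁` and `U'`
    {K L E : Type} [Field K] [Field L] [Field E] [Algebra ℂ K] [Algebra ℂ L] [Algebra ℂ E]
    [Algebra K L] [IsScalarTower ℂ K L] [FiniteDimensional K L]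
    [Algebra L E] [IsScalarTower ℂ L E] [FiniteDimensional L E] [Algebra.EssFiniteType ℂ K]
    (hw : 1 ≤ w) (hK : Algebra.trdeg ℂ K = w)
    -- the boundary of `U`; the cover `U₁ → U` is étale
    (Bd : Place ℂ K → Prop)
    (hunr : ∀ (P : Place ℂ K) (Q : Place ℂ L) (e : ℕ), Divisorial w P → Over Q P e → ¬ Bd P → e = 1)
    -- the rational map from `U'` to `X₀`
    (x : Fin (n + 1) → E) (j0 : Fin (n + 1)) (hx1 : x j0 = 1)
    (hgenL : IntermediateField.adjoin L (Set.range x) = ⊤)
    (halg : Algebra.IsAlgebraic (IntermediateField.adjoin ℂ (Set.range x)) E)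
    (hxV : ∀ f ∈ V, aeval x (map (algebraMap (algebraicClosure k ℂ) ℂ) f) = 0)
    (hxC : ∀ a ∈ C, aeval x (F a) = 0) (hxn : ∀ a, a ∉ C → aeval x (F a) ≠ 0)
    (hxq : ∀ a, a ∉ C → q a ≠ 0 → ∃ η : E, aeval x (F a) = η ^ q a)
    -- the divisors of `U'` with image in `F_a = 0`, `q_a = 0`, lie over the boundary
    (hB : ∀ (P : Place ℂ K) (Q₁ : Place ℂ L) (Q : Place ℂ E) (e e₁ : ℕ), Divisorial w P →
      Over Q₁ P e → Over Q Q₁ e₁ →
      (∃ a, a ∉ C ∧ q a = 0 ∧ d a * pord Q x < Q.ord (aeval x (F a))) → Bd P) :
    (2 * m + Module.finrank L E + ∑ a ∈ Cᶜ, d a / q a ≤ ∑ a, d a + C.card + w →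
      KodGe ℂ K w Bd 0 ∧ ¬ LogKodairaNeg ℂ K w Bd ∧ ¬ IsA1Uniruled ℂ K w Bd) ∧
    (2 * m + 2 * Module.finrank L E + ∑ a ∈ Cᶜ, d a / q a ≤ ∑ a, d a + C.card + w →
      KodGe ℂ K w Bd w) := by
  have h1 : 1 ≤ Module.finrank L E := Module.finrank_pos
  have hS : ∀ S : Finset A, (∀ a, a ∈ S ↔ a ∉ C) → S = Cᶜ := fun S hS => by
    ext a
    rw [hS, Finset.mem_compl]
  constructor
  · intro hd
    have h2 : KodGe ℂ K w Bd 0 :=
      (Pool.Agent.Q58.LG.open_gen (N := Module.finrank L E - 1) hVh hV hF
        hgen.algebraicClosure hw C hq (fun S h => by rw [hS S h]; omega) hK hunr hx1 hgenL halg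
        hxV hxC hxn hxq hB).1 (by omega)
    have h3 : ¬ LogKodairaNeg ℂ K w Bd := by
      obtain ⟨N, hN, ω, hω, D, hD, -⟩ := h2
      intro h
      exact hD (h N hN (ω 0) (hω 0).1 (fun P hP hB => (hω 0).2.2 P hP hB)
        (fun P hP _ => (hω 0).2.1 P hP) D)
    exact ⟨h2, h3, fun h => h3 (Pool.Agent.Y199.NN.neg_of_a1 hK h)⟩
  · intro hd
    exact (Pool.Agent.Q58.LG.open_gen (N := 2 * Module.finrank L E - 1) hVh hV hF
      hgen.algebraicClosure hw C hq (fun S h => by rw [hS S h]; omega) hK hunr hx1 hgenL halg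
      hxV hxC hxn hxq hB).2 (by omega)

end Pool.Agent.Results.MP_410da7_ag.CorrespondingPairs
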