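import Pool.Agent.Q58.LG.WdgL
import Pool.Agent.Y199.NN.NegA1

/-!
MP_410da7_ag, Q1: a class of quasi-projective varieties, with both cases of the question: the open
varieties with an étale cover which is dominated, in small degree, by a product of open varieties of
three kinds.

Let `U` be a quasi-projective variety of dimension `w` with function field `K`; the boundary `Bd` is
the set of the places of `K` whose centre is not on `U` (any set of places is allowed). Consider

  `U ← U₁ ← Y_1 × ... × Y_s`

where `U₁ → U` is finite of any degree and étale (the function field `L` of `U₁` is unramified over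
the prime divisors `P ∉ Bd`), and the second map is generically finite of degree `r = [E : L]`, with
any ramification, where `E` is generated by the function fields `M i` of the open varieties `Y_i`, of
dimensions `b i` with sum `w`. The map from the product to `U` is proper: the boundary of the product
is the preimage of `Bd` (`hBd`: over a prime divisor `P` of `K`, a place of `E` lies over the boundary
`BM i` of some `Y_i` if and only if `P` is in `Bd`). Each `Y_i` is of one of the following kinds.

(a) `OverPair`: `Y_i` is finite over a cyclic cover of a subvariety of a generic pair, in the range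
for `r`: `V ⊆ ℙⁿ` is closed, defined over the algebraic closure of a subfield `k` of `ℂ`, of
dimension at most `m`; the `F_a` are forms of degrees `d_a` with coefficients which are algebraically
independent over `k`; the rational map `x i` to `V` is generically finite onto its image,
`F_a (x i) = 0` for `a ∈ C`, and for the other `a` either `F_a (x i)` is a nonzero `q_a`-th power,
`q_a ∣ d_a`, or `q_a = 0`, `F_a (x i) ≠ 0` and the prime divisors of `Y_i` with image in `F_a = 0` are
in the boundary of `Y_i`; and `2 m + r + ∑_{a ∉ C} d_a / q_a ≤ ∑ d_a + |C| + b i` (`d / 0 = 0`).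

(b) `HasLogForm`: `Y_i` has a nonzero logarithmic canonical form, i.e. positive logarithmic genus, for
instance a punctured curve which is not the affine line, or a semiabelian variety; here all
coordinates of `x i` are `1`.

(c) `IsLine`: `Y_i` is the affine line, or the projective line.

The coordinates of the `x i` generate `E` over `L`.

Then the following are equivalent: the logarithmic Kodaira dimension of `U` is `-∞`; it is not at
least `0`; `U` is `𝔸¹`-uniruled; some `Y_i` is the affine or the projective line. So Q1 holds for `U`.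

`KodGe` (`Pool/Agent/W602/GT/KDefs.lean`): the logarithmic Kodaira dimension is at least `h`;
`LogKodairaNeg`, `IsA1Uniruled` (`Pool/Agent/W619/PL/LDefs.lean`): it is `-∞`, and
`𝔸¹`-uniruledness; `Divisorial` (`Pool/Agent/W602/GT/Defs.lean`): the place is a prime divisor;
`Over Q P e` (`Pool/Agent/Helper386/D5V/Helper399_OverDefs.lean`): the place `Q` lies over `P`, with
ramification index `e`; `OverPair`, `HasLogForm`: `Pool/Agent/Q58/LG/WdgL.lean`.
-/

set_option autoImplicit false

namespace Pool.Agent.Results.MP_410da7_ag.ProductPairs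

open FF
open Pool.Agent.W603.LV
open Pool.Agent.W602.GT (Divisorial KodGe)
open Pool.Agent.W619.PL (LogKodairaNeg IsA1Uniruled)
open Pool.Agent.Q58.LG (OverPair HasLogForm)

/-- The curve with function field `M` and boundary `Bd` is the affine line or the projective line:
for some generator `t` of `M`, the points where `t` is regular are not in the boundary. -/
def IsLine (M : Type) [Field M] [Algebra ℂ M] (b : ℕ) (Bd : Place ℂ M → Prop) : Prop :=
  b = 1 ∧ ∃ t : M, IntermediateField.adjoin ℂ {t} = ⊤ ∧ ∀ P : Place ℂ M, P.Reg t → ¬ Bd P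

theorem result {k : Type} [Field k] [Algebra k ℂ]
    -- the function fields of `U`, `U₁` and the product
    {K L E : Type} [Field K] [Field L] [Field E] [Algebra ℂ K] [Algebra ℂ L] [Algebra ℂ E]
    [Algebra K L] [IsScalarTower ℂ K L] [FiniteDimensional K L]
    [Algebra L E] [IsScalarTower ℂ L E] [FiniteDimensional L E] [Algebra K E]
    [IsScalarTower ℂ K E] [IsScalarTower K L E] [Algebra.EssFiniteType ℂ K]
    {w : ℕ} (hK : Algebra.trdeg ℂ K = w)
    -- the boundary of `U`; the cover `U₁ → U` is étale
    (Bd : Place ℂ K → Prop)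
    (hunr : ∀ (P : Place ℂ K) (Q : Place ℂ L) (e : ℕ), Divisorial w P → Over Q P e → ¬ Bd P → e = 1)
    -- the product of the `Y_i`
    {s : ℕ} {b n : Fin s → ℕ} (hw : w = ∑ i, b i) (M : Fin s → IntermediateField ℂ E)
    [∀ i, Algebra.EssFiniteType ℂ (M i)] (hM : ∀ i, Algebra.trdeg ℂ (M i) = b i)
    (hsup : (⨆ i, M i) = ⊤)
    -- the boundary of the product is the preimage of the boundary of `U`
    (BM : ∀ i, Place ℂ (M i) → Prop)
    (hBd : ∀ (P : Place ℂ K) (Q : Place ℂ E) (e : ℕ), Divisorial w P → Over Q P e →
      (Bd P ↔ ∃ (i : Fin s) (P' : Place ℂ (M i)) (e' : ℕ), Over Q P' e' ∧ BM i P'))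
    -- the points `x i`, and the three kinds of factors
    (x : ∀ i, Fin (n i + 1) → M i) (j0 : ∀ i, Fin (n i + 1)) (hx1 : ∀ i, x i (j0 i) = 1)
    (hgenL : IntermediateField.adjoin L (⋃ i, Set.range fun j => ((x i j : M i) : E)) = ⊤)
    (h : ∀ i, OverPair k (Module.finrank L E) (M i) (b i) (BM i) (x i) ∨
      ((∀ j, x i j = 1) ∧ HasLogForm (M i) (b i) (BM i)) ∨ IsLine (M i) (b i) (BM i)) :
    [LogKodairaNeg ℂ K w Bd, ¬ KodGe ℂ K w Bd 0, IsA1Uniruled ℂ K w Bd,
      ∃ i, IsLine (M i) (b i) (BM i)].TFAE := by
  have hE : Algebra.trdeg ℂ E = w :=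
    Pool.Agent.Y172.trdeg_up (K := L) (Pool.Agent.Y172.trdeg_up (K := K) hK)
  have hr : 1 ≤ Module.finrank L E := Module.finrank_pos
  tfae_have 4 → 3 := by
    rintro ⟨i, hb, t, ht, htB⟩
    exact Pool.Agent.Q58.LG.a1_of_factor hK hE hw M hM hsup
      (fun P Q e hP hQ hB => (hBd P Q e hP hQ).1 hB) hb ht htB
  tfae_have 3 → 1 := fun hu => Pool.Agent.Y199.NN.neg_of_a1 hK hu
  tfae_have 1 → 2 := by
    rintro hneg ⟨N, hN, ω, hω, D, hD, -⟩
    exact hD (hneg N hN (ω 0) (hω 0).1 (fun P hP hB => (hω 0).2.2 P hP hB)
      (fun P hP _ => (hω 0).2.1 P hP) D)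
  tfae_have 2 → 4 := by
    intro hk
    by_contra hno
    apply hk
    have hmany : ∀ i, Pool.Agent.Q58.LG.Many (M i) (b i) (Module.finrank L E - 1) (x i)
        (BM i) := by
      intro i
      rcases h i with h1 | ⟨h1, h2⟩ | h1
      · refine Pool.Agent.Q58.LG.many_pair (k := k) (hM i) (hx1 i) ?_
        rwa [Nat.sub_add_cancel hr]
      · exact Pool.Agent.Q58.LG.many_logform h1 h2
      · exact absurd ⟨i, h1⟩ hno
    have halg : Algebra.IsAlgebraic (⨆ i, M i : IntermediateField ℂ E) E := by
      rw [hsup]
      exact ⟨fun z => isAlgebraic_algebraMap (⟨z, trivial⟩ : (⊤ : IntermediateField ℂ E))⟩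
    refine Pool.Agent.Q58.LG.prod_open (N := Module.finrank L E - 1) hK hw hunr M hM halg hx1
      hgenL (fun P Q1 Q e e1 hP hQ1 hQ hB => (hBd P Q (e1 * e) hP ?_).2 hB) hmany (by omega)
    refine ⟨Nat.mul_pos hQ.1 hQ1.1, fun f => ?_⟩
    rw [IsScalarTower.algebraMap_apply K L E, hQ.2, hQ1.2]
    push_cast
    ring
  tfae_finish

end Pool.Agent.Results.MP_410da7_ag.ProductPairs
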