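import Pool.Agent.Q80.RA.Opn

/-!
MP_410da7_ag, Q1: the quasi-projective varieties with a generically finite rational map (onto the image)
to projective space which is ramified over many general hypersurfaces.

`L` is the function field of the variety `U` of dimension `w`, and `Bd` the set of the places of `L`
whose centre is not on `U` (any set of places is allowed), the boundary. The rational map is given by the
point `y` of projective space with coordinates in `L`; it is generically finite onto its image if `L` is
algebraic over the field generated by the ratios of the `y j`.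

Definitions: `MultAt`, `Exps` (`Q80/FH/Defs.lean`); `Divisorial` (the place is a prime divisor),
`KodGe` (the logarithmic Kodaira dimension is at least ...) (`W602/GT`); `LogKodairaNeg` (it is `-∞`),
`IsA1Uniruled` (`W619/PL/LDefs.lean`).
-/

set_option autoImplicit false

namespace Pool.Agent.Results.MP_410da7_ag.RamifiedOpenVarieties

open FF MvPolynomial Pool.Agent.Q80.FH Pool.Agent.Q80.RA
open Pool.Agent.W602.GT (Divisorial KodGe)
open Pool.Agent.W619.PL (LogKodairaNeg IsA1Uniruled)

/-- Let `k` be algebraically closed of characteristic zero, `n, d ≥ 1` and `m ≥ 2`,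
`N + 1 = C(n + d, n)`, `2 N m ≤ K (m - 1)` and `q > C(N + K, N)`. Let `F 1, …, F q` be general forms of
degree `d` in `n + 1` variables. Let `U` be a variety over `k` of dimension `w ≥ 1` and let `U ⇢ ℙⁿ` be a
rational map, generically finite onto its image (any subvariety), whose contact orders with the
hypersurfaces `F i = 0` at the prime divisors of `U` (not in the boundary) are, if finite, zero or at
least `m`. Then the logarithmic Kodaira dimension of `U` is `w`, it is not `-∞`, and `U` is not
`𝔸¹`-uniruled. -/
theorem result (k : Type) [Field k] [IsAlgClosed k] [CharZero k] {n d m N K q : ℕ} (hn : 1 ≤ n)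
    (hd : 1 ≤ d) (hm : 2 ≤ m) (hN : N + 1 = (n + d).choose n) (hK : 2 * N * m ≤ K * (m - 1))
    (hq : (N + K).choose N < q) :
    ∃ Ψ : MvPolynomial (Fin q × Exps n d) k, Ψ ≠ 0 ∧
      ∀ F : Fin q → MvPolynomial (Fin (n + 1)) k, (∀ i, (F i).IsHomogeneous d) →
        eval (fun x => coeff x.2.1 (F x.1)) Ψ ≠ 0 →
          ∀ (L : Type) [Field L] [Algebra k L] [Algebra.EssFiniteType k L] (w : ℕ)
            (Bd : Place k L → Prop) (y : Fin (n + 1) → L), 1 ≤ w → Algebra.trdeg k L = w → y ≠ 0 →
            Algebra.IsAlgebraic
              (IntermediateField.adjoin k {f : L | ∃ i j, y j ≠ 0 ∧ f = y i / y j}) L →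
            (∀ P : Place k L, Divisorial w P → ¬ Bd P → MultAt m d F y P) →
            KodGe k L w Bd w ∧ ¬ LogKodairaNeg k L w Bd ∧ ¬ IsA1Uniruled k L w Bd := by
  obtain ⟨Ψ, h1, h2⟩ := open_ram k hn hd hm hN hK hq
  exact ⟨Ψ, h1, fun F hF hΨ L _ _ _ w Bd y hw htr hy halg hP =>
    kod_of_lgt (h2 F hF hΨ L w Bd y hw htr hy halg hP)⟩

end Pool.Agent.Results.MP_410da7_ag.RamifiedOpenVarieties
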